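import Pool.Agent.Q299.EX.CntA

/-!
# Project EX, job CNT: upper bound for the index of `PX` in `UX`

Proof by helper299.
-/

set_option autoImplicit false
set_option linter.unusedSectionVars false
set_option linter.deprecated false

namespace Pool.Agent.Q299.EX

open NumberField IsDedekindDomain Pool.Agent.Q20.EX Pool.Agent.Q92.AR WithZero

section
variable {F : Type} [Field F] [NumberField F]

/-- Approximation at finitely many primes. -/
theorem approx {P : Set (HeightOneSpectrum (𝓞 F))} (hP : P.Finite)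
    (y : HeightOneSpectrum (𝓞 F) → Fˣ) (e : HeightOneSpectrum (𝓞 F) → ℕ) (he : ∀ v, 1 ≤ e v) :
    ∃ z : Fˣ, ∀ v ∈ P, v.valuation F ((z : F) / (y v : F) - 1) ≤ exp (-(e v : ℤ)) := by
  classical
  rcases P.eq_empty_or_nonempty with rfl | ⟨v0, hv0⟩
  · exact ⟨1, fun v hv => absurd hv (Set.notMem_empty v)⟩
  obtain ⟨b, hb⟩ := IsLocalization.exist_integer_multiples (nonZeroDivisors (𝓞 F)) hP.toFinset
    (fun v => (y v : F))
  set D : 𝓞 F := (b : 𝓞 F) with hD
  have hD0 : algebraMap (𝓞 F) F D ≠ 0 := by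
    rw [Ne, map_eq_zero_iff _ (FaithfulSMul.algebraMap_injective (𝓞 F) F)]
    exact nonZeroDivisors.ne_zero b.2
  have hw : ∀ v : HeightOneSpectrum (𝓞 F), ∃ w : 𝓞 F, v ∈ P →
      algebraMap (𝓞 F) F w = algebraMap (𝓞 F) F D * (y v : F) := by
    intro v
    by_cases hv : v ∈ P
    · obtain ⟨w, hw⟩ := hb v (hP.mem_toFinset.2 hv)
      refine ⟨w, fun _ => ?_⟩
      rw [hw, Algebra.smul_def]
    · exact ⟨0, fun h => absurd h hv⟩
  choose w hw using hw
  have hw0 : ∀ v ∈ P, w v ≠ 0 := by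
    intro v hv h0
    have h1 := hw v hv
    rw [h0, map_zero] at h1
    exact mul_ne_zero hD0 (y v).ne_zero h1.symm
  set j : HeightOneSpectrum (𝓞 F) → ℕ := fun v => multiplicity v.asIdeal (Ideal.span {w v}) with hj
  have hjv : ∀ v ∈ P, v.intValuation (w v) = exp (-(j v : ℤ)) := fun v hv =>
    v.intValuation_eq_exp_neg_multiplicity (hw0 v hv)
  obtain ⟨u, hu⟩ := IsDedekindDomain.exists_forall_sub_mem_ideal (s := hP.toFinset)
    (fun v : HeightOneSpectrum (𝓞 F) => v.asIdeal) (fun v => e v + j v)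
    (fun v _ => v.prime) (fun v _ v' _ hvv' h => hvv' (HeightOneSpectrum.ext h))
    (fun v => w v)
  have hu' : ∀ v ∈ P, v.intValuation (u - w v) ≤ exp (-((e v + j v : ℕ) : ℤ)) := fun v hv =>
    (v.intValuation_le_pow_iff_mem _ _).2 (hu v (hP.mem_toFinset.2 hv))
  have hu0 : u ≠ 0 := by
    rintro rfl
    have h1 := hu' v0 hv0
    rw [zero_sub, Valuation.map_neg, hjv v0 hv0, exp_le_exp] at h1
    have := he v0
    push_cast at h1
    omega
  have hu0' : algebraMap (𝓞 F) F u ≠ 0 := by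
    rw [Ne, map_eq_zero_iff _ (FaithfulSMul.algebraMap_injective (𝓞 F) F)]
    exact hu0
  refine ⟨Units.mk0 (algebraMap (𝓞 F) F u / algebraMap (𝓞 F) F D) (div_ne_zero hu0' hD0), ?_⟩
  intro v hv
  have hy0 : (y v : F) ≠ 0 := (y v).ne_zero
  have h1 : algebraMap (𝓞 F) F (w v) ≠ 0 := by
    rw [hw v hv]
    exact mul_ne_zero hD0 hy0
  have h2 : ((Units.mk0 (algebraMap (𝓞 F) F u / algebraMap (𝓞 F) F D) (div_ne_zero hu0' hD0) : Fˣ) : F)
      / (y v : F) - 1 = algebraMap (𝓞 F) F (u - w v) / algebraMap (𝓞 F) F (w v) := by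
    rw [Units.val_mk0, map_sub, hw v hv]
    field_simp
  rw [h2, map_div₀, v.valuation_of_algebraMap, v.valuation_of_algebraMap, hjv v hv]
  have h3 : exp (-(e v : ℤ)) = exp (-((e v + j v : ℕ) : ℤ)) / exp (-(j v : ℤ)) := by
    rw [← exp_sub]
    congr 1
    push_cast
    ring
  rw [h3]
  exact div_le_div_of_nonneg_right (hu' v hv) zero_le

/-- the value of an integer -/
theorem exists_val {n : ℕ} (hn : n ≠ 0) (v : HeightOneSpectrum (𝓞 F)) :
    ∃ k : ℕ, v.intValuation ((n : ℕ) : 𝓞 F) = exp (-(k : ℤ)) ∧ (n : 𝓞 F) ∈ v.asIdeal ^ k ∧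
      (n : 𝓞 F) ∉ v.asIdeal ^ (k + 1) := by
  have h0 : (n : 𝓞 F) ≠ 0 := by exact_mod_cast hn
  have h1 := v.intValuation_eq_exp_neg_multiplicity h0
  refine ⟨_, h1, ?_, ?_⟩
  · rw [← v.intValuation_le_pow_iff_mem, h1]
  · rw [← v.intValuation_le_pow_iff_mem, h1, exp_le_exp]
    push_cast
    omega

theorem prod_norm_le {n : ℕ} (hn : n ≠ 0) {T : Set (HeightOneSpectrum (𝓞 F))} [Fintype T]
    (k : HeightOneSpectrum (𝓞 F) → ℕ) (hk : ∀ v, (n : 𝓞 F) ∈ v.asIdeal ^ k v) :
    ∏ v : T, Ideal.absNorm v.1.asIdeal ^ k v.1 ≤ n ^ Module.finrank ℚ F := by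
  classical
  have h1 : (∏ v : T, v.1.asIdeal ^ k v.1) ∣ Ideal.span {(n : 𝓞 F)} := by
    refine Finset.prod_dvd_of_coprime ?_ ?_
    · intro v _ v' _ hvv'
      refine IsCoprime.pow ?_
      rw [Ideal.isCoprime_iff_sup_eq]
      have hm : v.1.asIdeal.IsMaximal := v.1.isMaximal
      have hm' : v'.1.asIdeal.IsMaximal := v'.1.isMaximal
      exact hm.coprime_of_ne hm' fun h => hvv' (Subtype.ext (HeightOneSpectrum.ext h))
    · intro v _
      rw [Ideal.dvd_span_singleton]
      exact hk v.1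
  have h2 := map_dvd (Ideal.absNorm (S := 𝓞 F)) h1
  rw [map_prod] at h2
  simp only [map_pow] at h2
  have h3 : Ideal.absNorm (Ideal.span {(n : 𝓞 F)}) = n ^ Module.finrank ℚ F := by
    rw [Ideal.absNorm_span_singleton, ← map_natCast (algebraMap ℤ (𝓞 F)) n,
      Algebra.norm_algebraMap, RingOfIntegers.rank]
    simp
  rw [h3] at h2
  exact Nat.le_of_dvd (pow_pos (Nat.pos_of_ne_zero hn) _) h2

end

/-- **Job CNT.** -/
theorem cnt : S_CNT := by
  classical
  intro hL F _ _ n N1 N ζ hn hζ hN hnN hNN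
  have hN1 : N1 ≠ 0 := by
    rintro rfl
    exact hN (Nat.eq_zero_of_zero_dvd hNN)
  have hT : (primesOf F N1).Finite := Pool.Agent.Q125.AR.finite_dvd hN1
  have hP : (primesOf F N).Finite := Pool.Agent.Q125.AR.finite_dvd hN
  have hTN : ∀ v ∈ primesOf F N1, v ∈ primesOf F N := by
    intro v hv
    obtain ⟨c, hc⟩ := hNN
    show (N : 𝓞 F) ∈ v.asIdeal
    rw [hc, Nat.cast_mul]
    exact v.asIdeal.mul_mem_right _ hv
  choose eN heN1 heN2 heN3 using fun v => exists_val (F := F) hN v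
  choose k hk1 hk2 hk3 using fun v => exists_val (F := F) hn.ne' v
  have hfin : Finite (primesOf F N1) := hT
  have hft : Fintype (primesOf F N1) := Fintype.ofFinite _
  -- exponents
  set e : HeightOneSpectrum (𝓞 F) → ℕ := fun v => max 1 (eN v) with he
  have he1 : ∀ v, 1 ≤ e v := fun v => le_max_left _ _
  have hval : ∀ v ∈ primesOf F N, v.valuation F (N : F) = exp (-(e v : ℤ)) := by
    intro v hv
    have h1 : v.valuation F (N : F) = v.intValuation (N : 𝓞 F) := by
      have h := v.valuation_of_algebraMap (K := F) (N : 𝓞 F)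
      have h' : ((N : 𝓞 F) : F) = (N : F) := map_natCast (algebraMap (𝓞 F) F) N
      rw [← h']
      exact h
    have h2 : 1 ≤ eN v := by
      by_contra hcon
      have h3 : eN v = 0 := by omega
      have h4 := heN3 v
      rw [h3, zero_add, pow_one] at h4
      exact h4 hv
    rw [h1, heN1, he]
    simp only
    rw [max_eq_right h2]
  set K : Subgroup Fˣ := ⨅ v : primesOf F N1, Hv v.1 n (e v.1) (he1 v.1) with hK
  have hloc : ∀ v : primesOf F N1, (Hv v.1 n (e v.1) (he1 v.1)).index ≠ 0 ∧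
      (Hv v.1 n (e v.1) (he1 v.1)).index ≤ n * (n * Ideal.absNorm v.1.asIdeal ^ k v.1) :=
    fun v => index_Hv hL hn hζ v.1 (k v.1) (e v.1) (he1 v.1) (hk3 v.1)
  have hK0 : K.index ≠ 0 := Subgroup.index_iInf_ne_zero fun v => (hloc v).1
  have hKle : K.index ≤ n ^ (2 * Nat.card (primesOf F N1) + Module.finrank ℚ F) := by
    refine (Subgroup.index_iInf_le _).trans ?_
    refine (Finset.prod_le_prod' fun v _ => (hloc v).2).trans ?_
    rw [Finset.prod_mul_distrib, Finset.prod_mul_distrib, Finset.prod_const, Finset.card_univ,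
      ← Nat.card_eq_fintype_card, ← mul_assoc, ← pow_add, ← two_mul, pow_add]
    exact Nat.mul_le_mul_left _ (prod_norm_le hn.ne' k hk2)
  -- the main inclusion
  have hincl : K ⊓ UX F N1 N ≤ PX F n N1 N := by
    rintro x ⟨hxK, hxU⟩
    have hx : ∀ v : HeightOneSpectrum (𝓞 F), ∃ y : Fˣ, (v ∈ primesOf F N1 →
        v.valuation F ((x : F) / (y : F) ^ n - 1) ≤ exp (-(e v : ℤ))) ∧
        (v ∉ primesOf F N1 → y = 1) := by
      intro v
      by_cases hv : v ∈ primesOf F N1
      · have h1 := (Subgroup.mem_iInf.1 hxK) ⟨v, hv⟩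
        obtain ⟨y, hy⟩ := h1
        exact ⟨y, fun _ => hy, fun h => absurd hv h⟩
      · exact ⟨1, fun h => absurd h hv, fun _ => rfl⟩
    choose y hy1 hy2 using hx
    obtain ⟨z, hz⟩ := approx hP y e he1
    have hlt : ∀ v, exp (-(e v : ℤ)) < (1 : ℤᵐ⁰) := by
      intro v
      rw [← exp_zero, exp_lt_exp]
      have := he1 v
      omega
    -- elements near one
    have near1 : ∀ (v : HeightOneSpectrum (𝓞 F)) (u : F),
        v.valuation F (u - 1) ≤ exp (-(e v : ℤ)) → v.valuation F u = 1 := by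
      intro v u hu
      have h2 : v.valuation F (u - 1) < v.valuation F (1 : F) := by
        rw [map_one]
        exact lt_of_le_of_lt hu (hlt v)
      have h3 := Valuation.map_add_eq_of_lt_right (v.valuation F) h2
      rw [sub_add_cancel, map_one] at h3
      exact h3
    have nearmul : ∀ (v : HeightOneSpectrum (𝓞 F)) (u u' : F),
        v.valuation F (u - 1) ≤ exp (-(e v : ℤ)) → v.valuation F (u' - 1) ≤ exp (-(e v : ℤ)) →
        v.valuation F (u * u' - 1) ≤ exp (-(e v : ℤ)) := by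
      intro v u u' hu hu'
      have h1 : u * u' - 1 = u * (u' - 1) + (u - 1) := by ring
      rw [h1]
      refine (Valuation.map_add _ _ _).trans (max_le ?_ hu)
      rw [map_mul, near1 v u hu, one_mul]
      exact hu'
    have nearinv : ∀ (v : HeightOneSpectrum (𝓞 F)) (u : F),
        v.valuation F (u - 1) ≤ exp (-(e v : ℤ)) → v.valuation F (u⁻¹ - 1) ≤ exp (-(e v : ℤ)) := by
      intro v u hu
      have h0 : u ≠ 0 := by
        rintro rfl
        have := near1 v 0 hu
        rw [map_zero] at this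
        exact zero_ne_one this
      have h1 : u⁻¹ - 1 = -(u⁻¹ * (u - 1)) := by
        field_simp
        ring
      rw [h1, Valuation.map_neg, map_mul, map_inv₀, near1 v u hu, inv_one, one_mul]
      exact hu
    have nearpow : ∀ (v : HeightOneSpectrum (𝓞 F)) (u : F) (i : ℕ),
        v.valuation F (u - 1) ≤ exp (-(e v : ℤ)) → v.valuation F (u ^ i - 1) ≤ exp (-(e v : ℤ)) := by
      intro v u i hu
      induction i with
      | zero => simp
      | succ i ih =>
        rw [pow_succ]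
        exact nearmul v _ _ ih hu
    have hzU : z ∈ UX F N1 N := by
      intro v hv hv1
      have h1 := hz v hv
      rw [hy2 v hv1, Units.val_one, div_one] at h1
      exact near1 v _ h1
    have hq : ∀ v ∈ primesOf F N1,
        v.valuation F (((x / z ^ n : Fˣ) : F) - 1) ≤ exp (-(e v : ℤ)) := by
      intro v hv
      have h1 := hy1 v hv
      have h2 := nearinv v _ (nearpow v _ n (hz v (hTN v hv)))
      have h3 := nearmul v _ _ h1 h2
      have hz0 : (z : F) ≠ 0 := z.ne_zero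
      have hy0 : (y v : F) ≠ 0 := (y v).ne_zero
      have h4 : ((x / z ^ n : Fˣ) : F) = (x : F) / (y v : F) ^ n * (((z : F) / (y v : F)) ^ n)⁻¹ := by
        rw [Units.val_div_eq_div_val, Units.val_pow_eq_pow_val, div_pow, inv_div,
          div_mul_div_cancel₀ (pow_ne_zero n hy0)]
      rw [h4]
      exact h3
    refine ⟨z, hzU, x / z ^ n, (UX F N1 N).div_mem hxU ((UX F N1 N).pow_mem hzU n), ?_, ?_, ?_⟩
    · intro v hv hvN
      rw [hval v hvN]
      exact hq v hv
    · intro v hv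
      exact near1 v _ (hq v hv)
    · rw [mul_div_cancel]
  have h1 : (K ⊓ UX F N1 N).relIndex (UX F N1 N) = K.relIndex (UX F N1 N) :=
    Subgroup.inf_relIndex_right _ _
  have h2 : K.relIndex (UX F N1 N) ≠ 0 := fun h => hK0 (Subgroup.index_eq_zero_of_relIndex_eq_zero h)
  have h3 : (PX F n N1 N).relIndex (UX F N1 N) ∣ (K ⊓ UX F N1 N).relIndex (UX F N1 N) :=
    Subgroup.relIndex_dvd_of_le_left _ hincl
  rw [h1] at h3
  have h4 : K.relIndex (UX F N1 N) ≤ K.index := by
    have h5 := Subgroup.relIndex_le_of_le_right (H := K) (K := UX F N1 N) (L := ⊤) le_top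
      (by rw [Subgroup.relIndex_top_right]; exact hK0)
    rwa [Subgroup.relIndex_top_right] at h5
  refine ⟨?_, ?_⟩
  · intro h
    rw [h] at h3
    exact h2 (Nat.eq_zero_of_zero_dvd h3)
  · exact (Nat.le_of_dvd (Nat.pos_of_ne_zero h2) h3).trans (h4.trans hKle)

end Pool.Agent.Q299.EX
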