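import Pool.Agent.Q20.EX.Stm

/-!
# Project EX, job LOCN: the `n`-torsion of `(𝓞/v^e)ˣ`

Proof by helper299.
-/

set_option autoImplicit false
set_option linter.unusedSectionVars false
set_option linter.deprecated false

namespace Pool.Agent.Q299.EX

open NumberField IsDedekindDomain Pool.Agent.Q20.EX Polynomial WithZero

section
variable {R : Type} [CommRing R] [IsDomain R]

open scoped Classical in
theorem prod_erase {n : ℕ} {ζ : R} (hn : 0 < n) (h : IsPrimitiveRoot ζ n) {a : R}
    (ha : a ∈ nthRootsFinset n (1 : R)) :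
    (n : R) * a ^ (n - 1) = ∏ b ∈ (nthRootsFinset n (1 : R)).erase a, (a - b) := by
  have h1 := X_pow_sub_one_eq_prod hn h
  rw [← Finset.mul_prod_erase _ _ ha] at h1
  have h2 := congrArg (fun p => (derivative p).eval a) h1
  simp only [derivative_sub, derivative_X_pow, derivative_one, sub_zero, derivative_mul,
    derivative_X, derivative_C, one_mul, eval_add, eval_mul, eval_sub, eval_X, eval_C, sub_self,
    zero_mul, add_zero, eval_pow, eval_natCast, map_natCast] at h2
  rw [h2, eval_prod]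
  simp

theorem eval_roots {n : ℕ} {ζ : R} (hn : 0 < n) (h : IsPrimitiveRoot ζ n) (x : R) :
    x ^ n - 1 = ∏ b ∈ nthRootsFinset n (1 : R), (x - b) := by
  have h1 := congrArg (eval x) (X_pow_sub_one_eq_prod hn h)
  simpa [eval_prod] using h1

end

section
variable {R : Type} [CommRing R] [IsDedekindDomain R]

/-- An `n`-th root of one modulo `v^e` is near to an `n`-th root of unity. -/
theorem near_root {n : ℕ} {ζ : R} (hn : 0 < n) (h : IsPrimitiveRoot ζ n) (v : HeightOneSpectrum R)
    {k e : ℕ} (hk : (n : R) ∉ v.asIdeal ^ (k + 1)) {x : R} (hx : x ^ n - 1 ∈ v.asIdeal ^ e) :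
    ∃ a ∈ nthRootsFinset n (1 : R), x - a ∈ v.asIdeal ^ (e - k) := by
  classical
  have hne : (nthRootsFinset n (1 : R)).Nonempty := ⟨1, by rw [mem_nthRootsFinset hn]; simp⟩
  obtain ⟨a, ha, hmin⟩ := Finset.exists_min_image _ (fun a => v.intValuation (x - a)) hne
  refine ⟨a, ha, ?_⟩
  rcases Nat.lt_or_ge e k with hek | hek
  · rw [Nat.sub_eq_zero_of_le hek.le, pow_zero, Ideal.one_eq_top]
    exact Submodule.mem_top
  have han : a ^ n = 1 := (mem_nthRootsFinset hn 1).1 ha
  -- the value of `n`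
  have h1 : v.intValuation (n : R) ≤
      ∏ b ∈ (nthRootsFinset n (1 : R)).erase a, v.intValuation (x - b) := by
    have e1 : (n : R) = (∏ b ∈ (nthRootsFinset n (1 : R)).erase a, (a - b)) * a := by
      rw [← prod_erase hn h ha, mul_assoc, ← pow_succ, Nat.sub_add_cancel hn, han, mul_one]
    calc v.intValuation (n : R)
        = (∏ b ∈ (nthRootsFinset n (1 : R)).erase a, v.intValuation (a - b)) *
            v.intValuation a := by rw [← map_prod, ← map_mul, ← e1]
      _ ≤ (∏ b ∈ (nthRootsFinset n (1 : R)).erase a, v.intValuation (a - b)) * 1 := by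
          gcongr
          exact v.intValuation_le_one a
      _ ≤ _ := by
          rw [mul_one]
          refine Finset.prod_le_prod' fun b hb => ?_
          have e2 : a - b = (x - b) - (x - a) := by ring
          rw [e2]
          refine (Valuation.map_sub _ _ _).trans (max_le le_rfl ?_)
          exact hmin b (Finset.mem_of_mem_erase hb)
  have h2 : v.intValuation (x - a) * v.intValuation (n : R) ≤ exp (-(e : ℤ)) := by
    refine le_trans ?_ ((v.intValuation_le_pow_iff_mem _ _).2 hx)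
    rw [eval_roots hn h x, map_prod, ← Finset.mul_prod_erase _ _ ha]
    exact mul_le_mul_right h1 _
  have h3 : exp (-(k : ℤ)) ≤ v.intValuation (n : R) := by
    rw [v.exp_le_intValuation_iff_emultiplicity_le]
    by_contra hcon
    push Not at hcon
    apply hk
    rw [← v.intValuation_le_pow_iff_mem, v.intValuation_le_exp_iff_le_emultiplicity]
    exact_mod_cast Order.add_one_le_of_lt hcon
  have h4 : v.intValuation (x - a) * exp (-(k : ℤ)) ≤ exp (-(e : ℤ)) :=
    (mul_le_mul_right h3 _).trans h2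
  rw [← v.intValuation_le_pow_iff_mem]
  have h5 : v.intValuation (x - a) = v.intValuation (x - a) * exp (-(k : ℤ)) * exp (k : ℤ) := by
    rw [mul_assoc, ← exp_add]
    simp
  rw [h5]
  refine (mul_le_mul_left h4 _).trans (le_of_eq ?_)
  rw [← exp_add]
  congr 1
  push_cast [Nat.cast_sub hek]
  ring

end

section
variable {F : Type} [Field F] [NumberField F]

theorem card_quot (v : HeightOneSpectrum (𝓞 F)) (e : ℕ) :
    Nat.card (𝓞 F ⧸ v.asIdeal ^ e) = Ideal.absNorm v.asIdeal ^ e := by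
  rw [← map_pow, Ideal.absNorm_apply, Submodule.cardQuot_apply]

theorem absNorm_pos (v : HeightOneSpectrum (𝓞 F)) : 0 < Ideal.absNorm v.asIdeal := by
  rw [Nat.pos_iff_ne_zero, Ne, Ideal.absNorm_eq_zero_iff]
  exact v.ne_bot

theorem finite_quot (v : HeightOneSpectrum (𝓞 F)) (e : ℕ) : Finite (𝓞 F ⧸ v.asIdeal ^ e) := by
  apply Nat.finite_of_card_ne_zero
  rw [card_quot]
  exact pow_ne_zero _ (absNorm_pos v).ne'

/-- the kernel of the reduction -/
theorem card_ker (v : HeightOneSpectrum (𝓞 F)) (k e : ℕ) :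
    Nat.card (RingHom.ker (Ideal.Quotient.factor
      (Ideal.pow_le_pow_right (Nat.sub_le e k) : v.asIdeal ^ e ≤ v.asIdeal ^ (e - k)))) ≤
      Ideal.absNorm v.asIdeal ^ k := by
  set f := Ideal.Quotient.factor
      (Ideal.pow_le_pow_right (Nat.sub_le e k) : v.asIdeal ^ e ≤ v.asIdeal ^ (e - k)) with hf
  have hsurj : Function.Surjective f := Ideal.Quotient.factor_surjective _
  have h1 : Nat.card (𝓞 F ⧸ v.asIdeal ^ e) =
      Nat.card (𝓞 F ⧸ v.asIdeal ^ (e - k)) * Nat.card (RingHom.ker f) := by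
    have h2 := AddSubgroup.card_eq_card_quotient_mul_card_addSubgroup (f.toAddMonoidHom.ker)
    rw [Nat.card_congr (QuotientAddGroup.quotientKerEquivOfSurjective f.toAddMonoidHom
      hsurj).toEquiv] at h2
    exact h2
  rw [card_quot, card_quot] at h1
  have hq := absNorm_pos v
  have h3 : Ideal.absNorm v.asIdeal ^ e =
      Ideal.absNorm v.asIdeal ^ (e - k) * Ideal.absNorm v.asIdeal ^ (e - (e - k)) := by
    rw [← pow_add]; congr 1; omega
  rw [h3] at h1
  have h4 := Nat.eq_of_mul_eq_mul_left (pow_pos hq _) h1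
  rw [← h4]
  exact Nat.pow_le_pow_right hq (by omega)

end

/-- **Job LOCN.** -/
theorem locn : S_LOCN := by
  classical
  intro F _ _ n ζ hn hζ v k e hk
  -- the root of unity in the ring of integers
  obtain ⟨z, hz⟩ : ∃ z : 𝓞 F, IsPrimitiveRoot z n := by
    refine ⟨⟨ζ, hζ.isIntegral hn⟩, ?_⟩
    have : IsPrimitiveRoot (algebraMap (𝓞 F) F ⟨ζ, hζ.isIntegral hn⟩) n := hζ
    exact this.of_map_of_injective (RingOfIntegers.coe_injective)
  have := finite_quot v e
  have := finite_quot v (e - k)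
  set f := Ideal.Quotient.factor
      (Ideal.pow_le_pow_right (Nat.sub_le e k) : v.asIdeal ^ e ≤ v.asIdeal ^ (e - k)) with hf
  have key : ∀ u : {x : (𝓞 F ⧸ v.asIdeal ^ e)ˣ // x ^ n = 1},
      ∃ a : nthRootsFinset n (1 : 𝓞 F),
        ((u.1 : (𝓞 F ⧸ v.asIdeal ^ e)ˣ) : 𝓞 F ⧸ v.asIdeal ^ e) -
          Ideal.Quotient.mk _ (a : 𝓞 F) ∈ RingHom.ker f := by
    rintro ⟨u, hu⟩
    obtain ⟨x, hx⟩ := Ideal.Quotient.mk_surjective (I := v.asIdeal ^ e) (u : 𝓞 F ⧸ v.asIdeal ^ e)
    have h1 : x ^ n - 1 ∈ v.asIdeal ^ e := by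
      rw [← Ideal.Quotient.eq_zero_iff_mem, map_sub, map_pow, hx, map_one, ← Units.val_pow_eq_pow_val,
        hu, Units.val_one, sub_self]
    obtain ⟨a, ha, hxa⟩ := near_root hn hz v hk h1
    refine ⟨⟨a, ha⟩, ?_⟩
    simp only
    rw [RingHom.mem_ker, ← hx, ← map_sub, hf, Ideal.Quotient.factor_mk,
      Ideal.Quotient.eq_zero_iff_mem]
    exact hxa
  choose g hg using key
  have hinj : Function.Injective (fun u : {x : (𝓞 F ⧸ v.asIdeal ^ e)ˣ // x ^ n = 1} =>
      ((g u, ⟨_, hg u⟩) : nthRootsFinset n (1 : 𝓞 F) × RingHom.ker f)) := by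
    intro u u' huu
    simp only [Prod.mk.injEq, Subtype.mk.injEq] at huu
    obtain ⟨h1, h2⟩ := huu
    rw [h1] at h2
    have h3 : ((u.1 : (𝓞 F ⧸ v.asIdeal ^ e)ˣ) : 𝓞 F ⧸ v.asIdeal ^ e) = u'.1 := sub_left_injective h2
    exact Subtype.ext (Units.ext h3)
  have h1 := Nat.card_le_card_of_injective _ hinj
  rw [Nat.card_prod] at h1
  have h2 : Nat.card (nthRootsFinset n (1 : 𝓞 F)) = n := by
    rw [Nat.card_eq_fintype_card, Fintype.card_coe, hz.card_nthRootsFinset]
  rw [h2] at h1
  exact h1.trans (Nat.mul_le_mul_left _ (card_ker v k e))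

end Pool.Agent.Q299.EX
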