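import Pool.Agent.Q20.EX.Stm
import Pool.Agent.Q225.AR.Fin
import Pool.Agent.Q95.AR.UHc

/-!
# Project EX, job UNT: the `n`-th powers in the group of the `S`-units

Proof by helper299.
-/

set_option autoImplicit false
set_option linter.unusedSectionVars false
set_option linter.deprecated false

namespace Pool.Agent.Q299.EX

open NumberField IsDedekindDomain Pool.Agent.Q20.EX Pool.Agent.Q92.AR

/-- the index of the multiples of `n` -/
noncomputable def ix (A : Type) [AddCommGroup A] (n : ℕ) : ℕ :=
  (nsmulAddMonoidHom (α := A) n).range.index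

theorem ix_ext {A C : Type} [AddCommGroup A] [AddCommGroup C] (f : A →+ C)
    (hf : Function.Surjective f) (n : ℕ) (htf : ∀ c : C, n • c = 0 → c = 0) :
    ix A n = ix f.ker n * ix C n := by
  unfold ix
  set H := (nsmulAddMonoidHom (α := A) n).range with hH
  have h1 : H.index = H.relIndex (H ⊔ f.ker) * (H ⊔ f.ker).index :=
    (AddSubgroup.relIndex_mul_index le_sup_left).symm
  have h2 : H ⊔ f.ker = (nsmulAddMonoidHom (α := C) n).range.comap f := by
    apply le_antisymm
    · refine sup_le ?_ ?_
      · rintro _ ⟨a, rfl⟩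
        exact ⟨f a, by simp⟩
      · intro a ha
        rw [AddSubgroup.mem_comap, (f.mem_ker).1 ha]
        exact AddSubgroup.zero_mem _
    · intro a ha
      obtain ⟨c, hc⟩ := ha
      obtain ⟨b, rfl⟩ := hf c
      have h3 : a = n • b + (a - n • b) := by abel
      rw [h3]
      refine AddSubgroup.add_mem_sup ⟨b, rfl⟩ ?_
      rw [f.mem_ker, map_sub, ← hc]
      simp
  have h3 : (H ⊔ f.ker).index = (nsmulAddMonoidHom (α := C) n).range.index := by
    rw [h2, AddSubgroup.index_comap_of_surjective _ hf]
  have h4 : H.relIndex (H ⊔ f.ker) = H.relIndex f.ker := AddSubgroup.relIndex_sup_left _ _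
  have h5 : H.addSubgroupOf f.ker = (nsmulAddMonoidHom (α := f.ker) n).range := by
    ext ⟨a, ha⟩
    rw [AddSubgroup.mem_addSubgroupOf]
    constructor
    · rintro ⟨b, hb⟩
      have hb' : n • b = a := hb
      have h6 : n • f b = 0 := by
        rw [← map_nsmul, hb']
        exact ha
      exact ⟨⟨b, htf _ h6⟩, Subtype.ext hb⟩
    · rintro ⟨⟨b, hb⟩, hb2⟩
      exact ⟨b, congrArg Subtype.val hb2⟩
  rw [h1, h3, h4]
  congr 1
  unfold AddSubgroup.relIndex
  rw [h5]

theorem ix_equiv {A B : Type} [AddCommGroup A] [AddCommGroup B] (e : A ≃+ B) (n : ℕ) :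
    ix A n = ix B n := by
  unfold ix
  have h1 := AddSubgroup.index_map_equiv (nsmulAddMonoidHom (α := A) n).range e
  have h2 : (nsmulAddMonoidHom (α := A) n).range.map (e : A →+ B) =
      (nsmulAddMonoidHom (α := B) n).range := by
    ext b
    constructor
    · rintro ⟨_, ⟨a, rfl⟩, rfl⟩
      exact ⟨e a, by simp⟩
    · rintro ⟨b, rfl⟩
      refine ⟨n • e.symm b, ⟨e.symm b, rfl⟩, by simp⟩
  rw [h2] at h1
  exact h1.symm

section
variable {F : Type} [Field F] [NumberField F]

theorem prin_iota (u : Additive (𝓞 F)ˣ) : prin (Pool.Agent.Q95.AR.iota F u).toMul = 0 := by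
  ext v
  rw [Finsupp.zero_apply, Pool.Agent.Q182.AR.prin_eq_zero_iff]
  have h1 : ∀ w : (𝓞 F)ˣ, v.valuation F (algebraMap (𝓞 F) F (w : 𝓞 F)) ≤ 1 :=
    fun w => v.valuation_le_one _
  have h2 : v.valuation F (algebraMap (𝓞 F) F (u.toMul : 𝓞 F)) *
      v.valuation F (algebraMap (𝓞 F) F ((u.toMul⁻¹ : (𝓞 F)ˣ) : 𝓞 F)) = 1 := by
    rw [← map_mul, ← map_mul, Units.mul_inv, map_one, map_one]
  refine le_antisymm (h1 _) ?_
  show (1 : WithZero (Multiplicative ℤ)) ≤ v.valuation F (algebraMap (𝓞 F) F (u.toMul : 𝓞 F))
  rw [← h2]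
  exact mul_le_of_le_one_right' (h1 _)

/-- units of the ring of integers -/
theorem ix_units (n : ℕ) (ζ : F) (hn : 2 < n) (hζ : IsPrimitiveRoot ζ n) :
    ix (Additive (𝓞 F)ˣ) n = n * n ^ Units.rank F := by
  classical
  have hn0 : n ≠ 0 := by omega
  let f : Additive (𝓞 F)ˣ →+ Additive ((𝓞 F)ˣ ⧸ Units.torsion F) :=
    MonoidHom.toAdditive (QuotientGroup.mk' (Units.torsion F))
  have hf : Function.Surjective f := QuotientGroup.mk'_surjective (Units.torsion F)
  have h1 := ix_ext (A := Additive (𝓞 F)ˣ) (C := Additive ((𝓞 F)ˣ ⧸ Units.torsion F)) f hf n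
    (fun c hc => by
    refine AddSubgroup.nsmulAddMonoidHom_injective_of_isTorsionFree
      (M := Additive ((𝓞 F)ˣ ⧸ Units.torsion F)) hn0 ?_
    rw [map_zero]
    exact hc)
  rw [h1]
  congr 1
  · -- the torsion
    have e : f.ker ≃+ Additive (Units.torsion F) := by
      have hk : f.ker = (Units.torsion F).toAddSubgroup := by
        ext x
        exact (QuotientGroup.eq_one_iff (x.toMul : (𝓞 F)ˣ))
      exact AddEquiv.addSubgroupCongr hk
    rw [ix_equiv e]
    have h2 : ix (Additive (Units.torsion F)) n = (Nat.card (Units.torsion F)).gcd n :=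
      IsAddCyclic.index_nsmulAddMonoidHom_range (G := Additive (Units.torsion F)) n
    rw [h2]
    apply Nat.gcd_eq_right
    -- `n` divides the number of roots of unity
    obtain ⟨z, hz⟩ : ∃ z : 𝓞 F, IsPrimitiveRoot z n := by
      refine ⟨⟨ζ, hζ.isIntegral (by omega)⟩, ?_⟩
      have : IsPrimitiveRoot (algebraMap (𝓞 F) F ⟨ζ, hζ.isIntegral (by omega)⟩) n := hζ
      exact this.of_map_of_injective (RingOfIntegers.coe_injective)
    have hu := hz.isUnit_unit hn0
    set u : (𝓞 F)ˣ := (hz.isUnit hn0).unit with hud
    have hut : u ∈ Units.torsion F := by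
      rw [Units.torsion, CommGroup.mem_torsion, isOfFinOrder_iff_pow_eq_one]
      exact ⟨n, by omega, hu.pow_eq_one⟩
    have h3 : orderOf (⟨u, hut⟩ : Units.torsion F) = n := by
      rw [Subgroup.orderOf_mk]
      exact hu.eq_orderOf.symm
    rw [← h3]
    exact orderOf_dvd_natCard _
  · unfold ix
    rw [AddSubgroup.index_range_nsmul, Units.finrank_modTorsion]

theorem finite_primesOf {N : ℕ} (hN : N ≠ 0) : (primesOf F N).Finite :=
  Pool.Agent.Q125.AR.finite_dvd hN

/-- the divisors of `S`-units -/
theorem ix_SU (n N1 : ℕ) (hn : n ≠ 0) (hN1 : N1 ≠ 0) :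
    ix (Additive (SU F N1)) n = ix (Additive (𝓞 F)ˣ) n * n ^ Nat.card (primesOf F N1) := by
  classical
  have hfin := (finite_primesOf (F := F) hN1)
  have : Finite (primesOf F N1) := hfin
  have : Fintype (primesOf F N1) := Fintype.ofFinite _
  let p : Additive (SU F N1) →+ (primesOf F N1 → ℤ) :=
    { toFun := fun x v => prin ((x.toMul : SU F N1) : Fˣ) v
      map_zero' := by
        ext v
        show prin (((0 : Additive (SU F N1)).toMul : SU F N1) : Fˣ) v = 0
        rw [toMul_zero, Subgroup.coe_one, prin_one]
        rfl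
      map_add' := fun x y => by
        ext v
        show prin (((x + y).toMul : SU F N1) : Fˣ) v = _
        rw [toMul_add, Subgroup.coe_mul, prin_mul]
        rfl }
  have hp : ∀ x v, p x v = prin ((x.toMul : SU F N1) : Fˣ) v := fun x v => rfl
  -- the kernel
  have hker : ∀ x, p x = 0 ↔ prin ((x.toMul : SU F N1) : Fˣ) = 0 := by
    intro x
    constructor
    · intro h
      ext v
      by_cases hv : v ∈ primesOf F N1
      · have := congrFun h ⟨v, hv⟩
        rw [hp] at this
        exact this
      · exact (x.toMul).2 v hv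
    · intro h
      ext v
      rw [hp, h]
      rfl
  -- the image has finite index
  have hidx : p.range.index ≠ 0 := by
    set h := (prinHom (F := F)).range.index with hh
    have hh0 : h ≠ 0 := by
      have h1 := Pool.Agent.Q225.AR.fin_class (F := F) 1
      have h2 : Pr F 1 = ⊤ := by
        rw [eq_top_iff]
        intro D _ v hv
        exfalso
        rw [Nat.cast_one] at hv
        exact v.isPrime.ne_top ((Ideal.eq_top_iff_one _).2 hv)
      rw [h2, AddSubgroup.relIndex_top_right] at h1
      exact h1
    have h1 : (nsmulAddMonoidHom (α := primesOf F N1 → ℤ) h).range ≤ p.range := by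
      rintro _ ⟨w, rfl⟩
      let D : Dv F := Finsupp.onFinset hfin.toFinset
        (fun v => if hv : v ∈ primesOf F N1 then w ⟨v, hv⟩ else 0) (by
          intro v hv
          rw [Set.Finite.mem_toFinset]
          by_contra hcon
          exact hv (dif_neg hcon))
      have hD : ∀ v, D v = if hv : v ∈ primesOf F N1 then w ⟨v, hv⟩ else 0 := fun v => rfl
      obtain ⟨x, hx⟩ := AddSubgroup.nsmul_index_mem (prinHom (F := F)).range D
      have hx' : prin x.toMul = h • D := hx
      have hxS : x.toMul ∈ SU F N1 := by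
        intro v hv
        rw [hx', Finsupp.smul_apply, hD, dif_neg hv, smul_zero]
      refine ⟨Additive.ofMul ⟨x.toMul, hxS⟩, ?_⟩
      ext v
      rw [hp]
      show prin x.toMul v = _
      rw [hx', Finsupp.smul_apply, hD, dif_pos v.2]
      rfl
    have h2 : (nsmulAddMonoidHom (α := primesOf F N1 → ℤ) h).range.index ≠ 0 := by
      rw [AddSubgroup.index_range_nsmul]
      exact pow_ne_zero _ hh0
    intro h3
    exact h2 (by
      have := AddSubgroup.index_dvd_of_le h1
      rw [h3] at this
      exact Nat.eq_zero_of_zero_dvd this)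
  have hfi : p.range.FiniteIndex := ⟨hidx⟩
  have h1 := ix_ext p.rangeRestrict p.rangeRestrict_surjective n (fun c hc => by
    apply Subtype.ext
    ext v
    have h2 : n • ((c : primesOf F N1 → ℤ) v) = 0 := by
      have := congrArg (fun z : p.range => (z : primesOf F N1 → ℤ) v) hc
      simpa using this
    rcases smul_eq_zero.1 h2 with h | h
    · exact absurd h hn
    · exact h)
  rw [h1]
  congr 1
  · -- the kernel is the unit group
    symm
    let g : Additive (𝓞 F)ˣ →+ p.rangeRestrict.ker :=
      { toFun := fun u => ⟨Additive.ofMul ⟨(Pool.Agent.Q95.AR.iota F u).toMul, by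
            show prin _ ∈ SupF F _
            rw [prin_iota]
            exact (SupF F _).zero_mem⟩, by
            rw [AddMonoidHom.mem_ker]
            apply Subtype.ext
            show p _ = 0
            rw [hker]
            exact prin_iota u⟩
        map_zero' := by
          apply Subtype.ext
          apply Additive.toMul.injective
          apply Subtype.ext
          show (Pool.Agent.Q95.AR.iota F 0).toMul = 1
          rw [map_zero]
          rfl
        map_add' := fun u v => by
          apply Subtype.ext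
          apply Additive.toMul.injective
          apply Subtype.ext
          show (Pool.Agent.Q95.AR.iota F (u + v)).toMul =
            (Pool.Agent.Q95.AR.iota F u).toMul * (Pool.Agent.Q95.AR.iota F v).toMul
          rw [map_add]
          rfl }
    have hg : ∀ u, ((((g u : p.rangeRestrict.ker) : Additive (SU F N1)).toMul : SU F N1) : Fˣ) =
        (Pool.Agent.Q95.AR.iota F u).toMul := fun u => rfl
    have hbij : Function.Bijective g := by
      constructor
      · intro u v huv
        apply Pool.Agent.Q95.AR.iota_inj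
        apply Additive.toMul.injective
        rw [← hg, ← hg, huv]
      · rintro ⟨x, hx⟩
        have hx1 : p x = 0 := by
          have := congrArg Subtype.val (AddMonoidHom.mem_ker.1 hx)
          exact this
        rw [hker] at hx1
        obtain ⟨u, hu⟩ := Pool.Agent.Q95.AR.unit_of_prin _ hx1
        refine ⟨Additive.ofMul u, ?_⟩
        apply Subtype.ext
        apply Additive.toMul.injective
        apply Subtype.ext
        apply Units.ext
        exact hu
    exact ix_equiv (AddEquiv.ofBijective g hbij) n
  · unfold ix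
    rw [AddSubgroup.index_range_nsmul, AddSubgroup.finrank_eq_of_finiteIndex,
      Module.finrank_fintype_fun_eq_card, Nat.card_eq_fintype_card]

end

/-- **Job UNT.** -/
theorem unt : S_UNT := by
  intro F _ _ n N1 ζ hn hζ hN1
  have h1 : ((SU F N1).map (powMonoidHom n)).relIndex (SU F N1) = ix (Additive (SU F N1)) n := by
    unfold Subgroup.relIndex ix
    have h2 : ((SU F N1).map (powMonoidHom n)).subgroupOf (SU F N1) =
        (powMonoidHom (α := SU F N1) n).range := by
      ext ⟨x, hx⟩
      rw [Subgroup.mem_subgroupOf]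
      constructor
      · rintro ⟨y, hy, hyx⟩
        exact ⟨⟨y, hy⟩, Subtype.ext hyx⟩
      · rintro ⟨⟨y, hy⟩, hyx⟩
        exact ⟨y, hy, congrArg Subtype.val hyx⟩
    rw [h2]
    rfl
  rw [h1, ix_SU n N1 (by omega) hN1, ix_units n ζ hn hζ]
  have h3 : InfinitePlace.nrRealPlaces F = 0 :=
    NumberField.InfinitePlace.IsPrimitiveRoot.nrRealPlaces_eq_zero_of_two_lt hn hζ
  have h4 := InfinitePlace.card_add_two_mul_card_eq_rank F
  have h5 := InfinitePlace.card_eq_nrRealPlaces_add_nrComplexPlaces F
  have h6 : 0 < Fintype.card (InfinitePlace F) := Fintype.card_pos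
  have h7 : Units.rank F = Fintype.card (InfinitePlace F) - 1 := rfl
  rw [← h4, h3, h7, h5, h3]
  rw [h3] at h5
  have h8 : n * n ^ (0 + InfinitePlace.nrComplexPlaces F - 1) =
      n ^ InfinitePlace.nrComplexPlaces F := by
    rw [← pow_succ']
    congr 1
    omega
  rw [h8, ← pow_add, ← pow_mul]
  congr 1
  ring

end Pool.Agent.Q299.EX
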