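import Pool.Agent.Q20.EX.Stm
import Pool.Agent.Q125.AR.Base

/-!
# Project EX, job CNT, part A: the local index

Proof by helper299.
-/

set_option autoImplicit false
set_option linter.unusedSectionVars false
set_option linter.deprecated false

namespace Pool.Agent.Q299.EX

open NumberField IsDedekindDomain Pool.Agent.Q20.EX Pool.Agent.Q92.AR WithZero

/-- a bound for an index from invariants -/
theorem index_le_of_inv {A κ : Type} [CommGroup A] [Finite κ] (H : Subgroup A) (φ : A → κ)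
    (h : ∀ x y : A, φ x = φ y → x / y ∈ H) : H.index ≠ 0 ∧ H.index ≤ Nat.card κ := by
  have hinj : Function.Injective (fun q : A ⧸ H => φ q.out) := by
    intro q q' hq
    have h1 := h _ _ hq.symm
    rw [← QuotientGroup.out_eq' q, ← QuotientGroup.out_eq' q']
    refine QuotientGroup.eq.2 ?_
    rw [inv_mul_eq_div]
    exact h1
  have hfin : Finite (A ⧸ H) := Finite.of_injective _ hinj
  exact ⟨Subgroup.index_ne_zero_of_finite, Nat.card_le_card_of_injective _ hinj⟩

section
variable {F : Type} [Field F] [NumberField F]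

/-- congruence of two numbers at `v`, up to `n`-th powers -/
def Hv (v : HeightOneSpectrum (𝓞 F)) (n e : ℕ) (he : 1 ≤ e) : Subgroup Fˣ where
  carrier := {x | ∃ y : Fˣ, v.valuation F ((x : F) / (y : F) ^ n - 1) ≤ exp (-(e : ℤ))}
  one_mem' := ⟨1, by simp⟩
  mul_mem' {a b} ha hb := by
    obtain ⟨y, hy⟩ := ha
    obtain ⟨z, hz⟩ := hb
    refine ⟨y * z, ?_⟩
    have h1 : ((a * b : Fˣ) : F) / ((y * z : Fˣ) : F) ^ n - 1 =
        ((a : F) / (y : F) ^ n - 1) * ((b : F) / (z : F) ^ n - 1) +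
          (((a : F) / (y : F) ^ n - 1) + ((b : F) / (z : F) ^ n - 1)) := by
      rw [Units.val_mul, Units.val_mul, mul_pow, ← div_mul_div_comm]
      ring
    rw [h1]
    have hle : exp (-(e : ℤ)) ≤ (1 : ℤᵐ⁰) := by
      rw [← exp_zero, exp_le_exp]
      omega
    refine (Valuation.map_add _ _ _).trans (max_le ?_ ?_)
    · rw [map_mul]
      exact mul_le_of_le_of_le_one hy (hz.trans hle)
    · exact (Valuation.map_add _ _ _).trans (max_le hy hz)
  inv_mem' {a} ha := by
    obtain ⟨y, hy⟩ := ha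
    refine ⟨y⁻¹, ?_⟩
    have hlt : exp (-(e : ℤ)) < (1 : ℤᵐ⁰) := by
      rw [← exp_zero, exp_lt_exp]
      omega
    set u := (a : F) / (y : F) ^ n with hu
    have hu0 : u ≠ 0 := div_ne_zero a.ne_zero (pow_ne_zero _ y.ne_zero)
    have hu1 : v.valuation F u = 1 := by
      have h2 : v.valuation F (u - 1) < v.valuation F (1 : F) := by
        rw [map_one]
        exact lt_of_le_of_lt hy hlt
      have h3 := Valuation.map_add_eq_of_lt_right (v.valuation F) h2
      rw [sub_add_cancel, map_one] at h3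
      exact h3
    have h1 : ((a⁻¹ : Fˣ) : F) / ((y⁻¹ : Fˣ) : F) ^ n - 1 = - (u⁻¹ * (u - 1)) := by
      rw [Units.val_inv_eq_inv_val, Units.val_inv_eq_inv_val, inv_pow, ← inv_div_inv, inv_inv,
        inv_inv, ← inv_div, ← hu, mul_sub, inv_mul_cancel₀ hu0, mul_one]
      ring
    rw [h1, Valuation.map_neg, map_mul, map_inv₀, hu1, inv_one, one_mul]
    exact hy

theorem mem_Hv {v : HeightOneSpectrum (𝓞 F)} {n e : ℕ} {he : 1 ≤ e} {x : Fˣ} :
    x ∈ Hv v n e he ↔ ∃ y : Fˣ, v.valuation F ((x : F) / (y : F) ^ n - 1) ≤ exp (-(e : ℤ)) :=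
  Iff.rfl

theorem val_one_of_notMem {v : HeightOneSpectrum (𝓞 F)} {a : 𝓞 F} (ha : a ∉ v.asIdeal) :
    v.valuation F (algebraMap (𝓞 F) F a) = 1 := v.valuation_eq_one_iff_notMem.2 ha

theorem isUnit_mk (v : HeightOneSpectrum (𝓞 F)) (e : ℕ) {a : 𝓞 F} (ha : a ∉ v.asIdeal) :
    IsUnit (Ideal.Quotient.mk (v.asIdeal ^ e) a) := by
  have h1 : Ideal.span {a} ⊔ v.asIdeal ^ e = ⊤ := by
    apply Ideal.sup_pow_eq_top
    have hm : v.asIdeal.IsMaximal := v.isMaximal
    rw [sup_comm]
    refine hm.out.2 _ (left_lt_sup.2 fun hle => ha (hle (Ideal.mem_span_singleton_self a)))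
  rw [Ideal.eq_top_iff_one, Submodule.mem_sup] at h1
  obtain ⟨b, hb, c, hc, hbc⟩ := h1
  obtain ⟨d, rfl⟩ := Ideal.mem_span_singleton'.1 hb
  refine IsUnit.of_mul_eq_one (Ideal.Quotient.mk _ d) ?_
  rw [← map_mul, ← map_one (Ideal.Quotient.mk (v.asIdeal ^ e)), Ideal.Quotient.eq]
  have h2 : a * d - 1 = -c := by rw [← hbc]; ring
  rw [h2]
  exact Ideal.neg_mem_iff _ |>.2 hc

/-- **The local index.** -/
theorem index_Hv (hL : S_LOCN) {n : ℕ} {ζ : F} (hn : 0 < n) (hζ : IsPrimitiveRoot ζ n)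
    (v : HeightOneSpectrum (𝓞 F)) (k e : ℕ) (he : 1 ≤ e) (hk : (n : 𝓞 F) ∉ v.asIdeal ^ (k + 1)) :
    (Hv v n e he).index ≠ 0 ∧
      (Hv v n e he).index ≤ n * (n * Ideal.absNorm v.asIdeal ^ k) := by
  classical
  have hcard := hL F n ζ hn hζ v k e hk
  have hq : Nat.card (𝓞 F ⧸ v.asIdeal ^ e) ≠ 0 := by
    have h1 : Nat.card (𝓞 F ⧸ v.asIdeal ^ e) = Ideal.absNorm v.asIdeal ^ e := by
      rw [← map_pow, Ideal.absNorm_apply, Submodule.cardQuot_apply]
    rw [h1]
    apply pow_ne_zero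
    rw [Ne, Ideal.absNorm_eq_zero_iff]
    exact v.ne_bot
  have hfin : Finite (𝓞 F ⧸ v.asIdeal ^ e) := Nat.finite_of_card_ne_zero hq
  -- a uniformizer
  obtain ⟨π, hπ⟩ := v.valuation_exists_uniformizer F
  have hπ0 : π ≠ 0 := by
    rintro rfl
    rw [map_zero] at hπ
    exact exp_ne_zero hπ.symm
  set Pi : Fˣ := Units.mk0 π hπ0 with hPi
  have hPiv : v.valuation F (Pi : F) = exp (-1 : ℤ) := hπ
  -- the unit part
  have hunit : ∀ x : Fˣ, v.valuation F ((x * Pi ^ (-(prin x v)) : Fˣ) : F) = 1 := by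
    intro x
    rw [Units.val_mul, map_mul, Units.val_zpow_eq_zpow_val, map_zpow₀, hPiv,
      Pool.Agent.Q125.AR.valuation_eq_exp, ← exp_zsmul, ← exp_add, ← exp_zero]
    congr 1
    simp
  have hrep : ∀ x : Fˣ, ∃ a d : 𝓞 F, a ∉ v.asIdeal ∧ d ∉ v.asIdeal ∧
      ((x * Pi ^ (-(prin x v)) : Fˣ) : F) * algebraMap (𝓞 F) F d = algebraMap (𝓞 F) F a := by
    intro x
    obtain ⟨a, d, had⟩ := v.exists_primeCompl_mul_eq_of_integer _ (hunit x).le
    refine ⟨a, d, ?_, d.2, had⟩
    rw [← v.valuation_eq_one_iff_notMem (K := F), ← had, map_mul, hunit x, one_mul]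
    exact val_one_of_notMem d.2
  choose a d ha hd had using hrep
  let φ : Fˣ → (𝓞 F ⧸ v.asIdeal ^ e)ˣ := fun x =>
    (isUnit_mk v e (ha x)).unit / (isUnit_mk v e (hd x)).unit
  let Q := (𝓞 F ⧸ v.asIdeal ^ e)ˣ ⧸ (powMonoidHom (α := (𝓞 F ⧸ v.asIdeal ^ e)ˣ) n).range
  have hQ : Nat.card Q ≤ n * Ideal.absNorm v.asIdeal ^ k := by
    have h1 : Nat.card Q = Nat.card (powMonoidHom (α := (𝓞 F ⧸ v.asIdeal ^ e)ˣ) n).ker := by
      have h2 := Subgroup.index_range (f := powMonoidHom (α := (𝓞 F ⧸ v.asIdeal ^ e)ˣ) n)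
      exact h2
    rw [h1]
    exact hcard
  have hn0 : NeZero n := ⟨hn.ne'⟩
  have key := index_le_of_inv (Hv v n e he)
    (fun x => (((prin x v : ℤ) : ZMod n), (QuotientGroup.mk (φ x) : Q))) ?_
  · refine ⟨key.1, key.2.trans ?_⟩
    rw [Nat.card_prod, Nat.card_zmod]
    exact Nat.mul_le_mul_left _ hQ
  · intro x y hxy
    rw [Prod.ext_iff] at hxy
    obtain ⟨h1, h2⟩ := hxy
    simp only at h1 h2
    rw [ZMod.intCast_eq_intCast_iff_dvd_sub] at h1
    obtain ⟨m, hm⟩ := h1
    obtain ⟨c, hc⟩ := QuotientGroup.eq.1 h2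
    obtain ⟨c', hc'⟩ := Ideal.Quotient.mk_surjective (I := v.asIdeal ^ e)
      (c : 𝓞 F ⧸ v.asIdeal ^ e)
    have hcn : c' ∉ v.asIdeal := by
      intro hmem
      have h3 : IsUnit (Ideal.Quotient.mk (v.asIdeal ^ e) c') := by rw [hc']; exact c.isUnit
      have h4 : Ideal.Quotient.mk (v.asIdeal ^ e) (c' ^ e) = 0 := by
        rw [Ideal.Quotient.eq_zero_iff_mem]
        exact Ideal.pow_mem_pow hmem e
      rw [map_pow] at h4
      have h5 : IsUnit (0 : 𝓞 F ⧸ v.asIdeal ^ e) := h4 ▸ h3.pow e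
      have h6 := isUnit_zero_iff.1 h5
      have h7 : (1 : 𝓞 F) ∈ v.asIdeal ^ e := by
        rw [← Ideal.Quotient.eq_zero_iff_mem, map_one, h6]
      have h8 : (1 : 𝓞 F) ∈ v.asIdeal := Ideal.pow_le_self (by omega) h7
      exact v.isPrime.ne_top ((Ideal.eq_top_iff_one _).2 h8)
    -- the congruence
    have h3 : a y * d x - a x * d y * c' ^ n ∈ v.asIdeal ^ e := by
      rw [← Ideal.Quotient.eq_zero_iff_mem]
      have h4 : φ y = φ x * c ^ n := by
        have h5 : c ^ n = (φ x)⁻¹ * φ y := hc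
        rw [h5]
        group
      have h6 : (isUnit_mk v e (ha y)).unit * (isUnit_mk v e (hd x)).unit =
          (isUnit_mk v e (ha x)).unit * (isUnit_mk v e (hd y)).unit * c ^ n := by
        have h7 : (isUnit_mk v e (ha y)).unit / (isUnit_mk v e (hd y)).unit =
          (isUnit_mk v e (ha x)).unit / (isUnit_mk v e (hd x)).unit * c ^ n := h4
        rw [div_eq_iff_eq_mul] at h7
        rw [h7, div_mul_eq_mul_div, div_mul_eq_mul_div, div_mul_cancel, mul_right_comm]
      have h8 := congrArg Units.val h6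
      simp only [Units.val_mul, IsUnit.unit_spec, Units.val_pow_eq_pow_val] at h8
      rw [map_sub, map_mul, map_mul, map_mul, map_pow, hc', h8, sub_self]
    have hinv : y / x ∈ Hv v n e he := by
      have hc0 : algebraMap (𝓞 F) F c' ≠ 0 := by
        intro h0
        have := val_one_of_notMem hcn
        rw [h0, map_zero] at this
        exact zero_ne_one this
      have hx0 : algebraMap (𝓞 F) F (a x) ≠ 0 := by
        intro h0
        have := val_one_of_notMem (ha x)
        rw [h0, map_zero] at this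
        exact zero_ne_one this
      have hdx0 : algebraMap (𝓞 F) F (d x) ≠ 0 := by
        intro h0
        have := val_one_of_notMem (hd x)
        rw [h0, map_zero] at this
        exact zero_ne_one this
      have hdy0 : algebraMap (𝓞 F) F (d y) ≠ 0 := by
        intro h0
        have := val_one_of_notMem (hd y)
        rw [h0, map_zero] at this
        exact zero_ne_one this
      refine ⟨Pi ^ m * Units.mk0 _ hc0, ?_⟩
      have e1 : ∀ z : Fˣ, (z : F) = algebraMap (𝓞 F) F (a z) / algebraMap (𝓞 F) F (d z) *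
          π ^ (prin z v) := by
        intro z
        have hdz0 : algebraMap (𝓞 F) F (d z) ≠ 0 := by
          intro h0
          have := val_one_of_notMem (hd z)
          rw [h0, map_zero] at this
          exact zero_ne_one this
        have h5 := had z
        rw [Units.val_mul, Units.val_zpow_eq_zpow_val, hPi, Units.val_mk0, zpow_neg] at h5
        rw [← h5]
        have h6 : π ^ (prin z v) ≠ 0 := zpow_ne_zero _ hπ0
        field_simp
      have e2 : ((y / x : Fˣ) : F) / ((Pi ^ m * Units.mk0 _ hc0 : Fˣ) : F) ^ n - 1 =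
          (algebraMap (𝓞 F) F (a y * d x - a x * d y * c' ^ n)) /
            (algebraMap (𝓞 F) F (d y) * algebraMap (𝓞 F) F (a x) *
              algebraMap (𝓞 F) F c' ^ n) := by
        simp only [Units.val_div_eq_div_val, Units.val_mul, Units.val_zpow_eq_zpow_val, hPi,
          Units.val_mk0]
        rw [e1 y, e1 x, mul_pow, map_sub, map_mul, map_mul, map_mul, map_pow]
        have h6 : π ^ (prin x v) ≠ 0 := zpow_ne_zero _ hπ0
        have h7 : π ^ (prin y v) = π ^ (prin x v) * (π ^ m) ^ n := by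
          rw [← zpow_natCast (π ^ m) n, ← zpow_mul, ← zpow_add₀ hπ0]
          congr 1
          rw [mul_comm m]
          linarith
        have h8 : (π ^ m) ^ n ≠ 0 := pow_ne_zero _ (zpow_ne_zero _ hπ0)
        have h9 : algebraMap (𝓞 F) F c' ^ n ≠ 0 := pow_ne_zero _ hc0
        rw [h7]
        field_simp
      rw [e2, map_div₀, map_mul, map_mul, map_pow, val_one_of_notMem hcn,
        val_one_of_notMem (ha x), val_one_of_notMem (hd y), one_pow, mul_one, mul_one, div_one,
        v.valuation_of_algebraMap]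
      exact (v.intValuation_le_pow_iff_mem _ _).2 h3
    rw [← inv_div]
    exact (Hv v n e he).inv_mem hinv

end

end Pool.Agent.Q299.EX
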